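import Pool.Agent.Helper61.Tri.Goals

/-! MP_5b3c48_co, packet PEEL. -/

set_option autoImplicit false

open Finset

namespace Pool.Agent.Helper62.Tri

open Pool.Agent.Helper61.Tri

noncomputable section

open scoped Classical

variable {V : Type} [Fintype V]

theorem mem_cn {G : SimpleGraph V} {u v w : V} : w ∈ cn G u v ↔ G.Adj u w ∧ G.Adj v w := by
  simp [cn]

theorem mem_oe {G : SimpleGraph V} {p : V × V} : p ∈ oe G ↔ G.Adj p.1 p.2 := by
  simp [oe]

theorem mem_ot {G : SimpleGraph V} {p : V × V × V} :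
    p ∈ ot G ↔ G.Adj p.1 p.2.1 ∧ G.Adj p.1 p.2.2 ∧ G.Adj p.2.1 p.2.2 := by
  simp [ot]

omit [Fintype V] in
theorem pick {A S : Finset V} (h : S.card < A.card) : ∃ w ∈ A, w ∉ S := by
  by_contra hcon
  push Not at hcon
  have := Finset.card_le_card (fun x hx => hcon x hx : A ⊆ S)
  omega

/-- Long expanded paths with adjacent ends. -/
theorem long (ht : EPTools) {G : SimpleGraph V} {K : ℕ} (hK : ∀ u v, G.Adj u v → K ≤ (cn G u v).card)
    {u₀ v₀ : V} (h0 : G.Adj u₀ v₀) : ∀ l : ℕ, 2 * l + 4 ≤ K → ∃ u v S, EP G (l + 1) u v S ∧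
      G.Adj u v ∧ S.card ≤ 2 * l + 3 ∧ v ∈ S := by
  intro l
  induction l with
  | zero =>
    intro hl
    obtain ⟨a, ha, _⟩ := pick (A := cn G u₀ v₀) (S := (∅ : Finset V)) (by
      have := hK u₀ v₀ h0
      simp only [Finset.card_empty]
      omega)
    rw [mem_cn] at ha
    refine ⟨u₀, v₀, {u₀, v₀, a}, ht.single h0 ha.1 ha.2, h0, ?_, by simp⟩
    have := Finset.card_le_three (a := u₀) (b := v₀) (c := a)
    omega
  | succ l ih =>
    intro hl
    obtain ⟨u, v, S, hS, huv, hc, hv⟩ := ih (by omega)
    obtain ⟨w, hw, hwS⟩ := pick (A := cn G u v) (S := S) (by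
      have := hK u v huv
      omega)
    rw [mem_cn] at hw
    obtain ⟨b, hb, hbS⟩ := pick (A := cn G v w) (S := insert w S) (by
      have h1 := hK v w hw.2
      have h2 := Finset.card_insert_le w S
      omega)
    rw [mem_cn] at hb
    rw [Finset.mem_insert, not_or] at hbS
    have h1 := ht.single hw.2 hb.1 hb.2
    have h2 := ht.trans hS h1 (by
      intro x hx
      rw [Finset.mem_inter, Finset.mem_insert, Finset.mem_insert, Finset.mem_singleton] at hx
      rw [Finset.mem_singleton]
      rcases hx with ⟨hxS, rfl | rfl | rfl⟩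
      · rfl
      · exact absurd hxS hwS
      · exact absurd hxS hbS.2)
    refine ⟨u, w, S ∪ {v, w, b}, h2, hw.1, ?_, by simp⟩
    have h3 : S ∪ {v, w, b} ⊆ insert w (insert b S) := by
      intro x hx
      rw [Finset.mem_union, Finset.mem_insert, Finset.mem_insert, Finset.mem_singleton] at hx
      rw [Finset.mem_insert, Finset.mem_insert]
      rcases hx with hx | rfl | rfl | rfl
      · exact Or.inr (Or.inr hx)
      · exact Or.inr (Or.inr hv)
      · exact Or.inl rfl
      · exact Or.inr (Or.inl rfl)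
    have h4 := Finset.card_le_card h3
    have h5 := Finset.card_insert_le w (insert b S)
    have h6 := Finset.card_insert_le b S
    omega

theorem has_of_dense (ht : EPTools) {G : SimpleGraph V} {s : ℕ} (hs : 1 ≤ s)
    (hK : ∀ u v, G.Adj u v → 4 * s + 12 ≤ (cn G u v).card) {u₀ v₀ : V} (h0 : G.Adj u₀ v₀)
    (κ : Kind) : Has κ s G := by
  have hpath : ∀ l, l ≤ 2 * s + 1 → EPath G (l + 1) := by
    intro l hl
    obtain ⟨u, v, S, h, _⟩ := long ht hK h0 l (by omega)
    exact ⟨u, v, S, h⟩
  have hcyc : ∀ l, l ≤ 2 * s + 1 → ECyc G (l + 2) := by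
    intro l hl
    obtain ⟨u, v, S, h, huv, hc, _⟩ := long ht hK h0 l (by omega)
    obtain ⟨w, hw, hwS⟩ := pick (A := cn G u v) (S := S) (by
      have := hK u v huv
      omega)
    rw [mem_cn] at hw
    exact ⟨u, v, w, S, h, huv, hw.1, hw.2, hwS⟩
  cases κ with
  | P => exact hpath (2 * s + 1) le_rfl
  | Ce => exact hcyc (2 * s) (by omega)
  | Co =>
    obtain ⟨t, rfl⟩ : ∃ t, s = t + 1 := ⟨s - 1, by omega⟩
    have := hcyc (2 * t + 1) (by omega)
    exact this
  | Po => exact hpath (2 * s) (by omega)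

/-- Deleting an edge. -/
def del (G : SimpleGraph V) (u v : V) : SimpleGraph V where
  Adj a b := G.Adj a b ∧ ¬ ((a = u ∧ b = v) ∨ (a = v ∧ b = u))
  symm := ⟨fun a b h => ⟨h.1.symm, by
    intro h'
    apply h.2
    tauto⟩⟩
  loopless := ⟨fun _ h => G.loopless.irrefl _ h.1⟩

omit [Fintype V] in
theorem del_le (G : SimpleGraph V) (u v : V) : del G u v ≤ G := fun _ _ h => h.1

theorem oe_del {G : SimpleGraph V} {u v : V} (h : G.Adj u v) :
    (oe (del G u v)).card + 2 ≤ (oe G).card := by
  have hne : u ≠ v := h.ne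
  have h1 : oe (del G u v) ∪ {(u, v), (v, u)} ⊆ oe G := by
    intro p hp
    rw [Finset.mem_union, mem_oe, Finset.mem_insert, Finset.mem_singleton] at hp
    rw [mem_oe]
    rcases hp with hp | rfl | rfl
    · exact hp.1
    · exact h
    · exact h.symm
  have h2 : Disjoint (oe (del G u v)) {(u, v), (v, u)} := by
    rw [Finset.disjoint_left]
    intro p hp hp'
    rw [mem_oe] at hp
    rw [Finset.mem_insert, Finset.mem_singleton] at hp'
    rcases hp' with rfl | rfl
    · exact hp.2 (Or.inl ⟨rfl, rfl⟩)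
    · exact hp.2 (Or.inr ⟨rfl, rfl⟩)
  have h3 := Finset.card_le_card h1
  rw [Finset.card_union_of_disjoint h2, Finset.card_pair (by
    intro h'
    exact hne (Prod.ext_iff.1 h').1)] at h3
  exact h3

theorem ot_del {G : SimpleGraph V} {u v : V} :
    (ot G).card ≤ (ot (del G u v)).card + 6 * (cn G u v).card := by
  have hsub : ot G ⊆ ot (del G u v) ∪ ((cn G u v).image (fun w => (u, v, w)) ∪
      (cn G u v).image (fun w => (v, u, w)) ∪ (cn G u v).image (fun w => (u, w, v)) ∪
      (cn G u v).image (fun w => (v, w, u)) ∪ (cn G u v).image (fun w => (w, u, v)) ∪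
      (cn G u v).image (fun w => (w, v, u))) := by
    rintro ⟨a, b, c⟩ hp
    rw [mem_ot] at hp
    simp only [] at hp
    obtain ⟨hab, hac, hbc⟩ := hp
    simp only [Finset.mem_union, Finset.mem_image, mem_cn, Prod.mk.injEq, mem_ot]
    by_cases e1 : (a = u ∧ b = v) ∨ (a = v ∧ b = u)
    · rcases e1 with ⟨rfl, rfl⟩ | ⟨rfl, rfl⟩
      · right; left; left; left; left; left
        exact ⟨c, ⟨hac, hbc⟩, rfl, rfl, rfl⟩
      · right; left; left; left; left; right
        exact ⟨c, ⟨hbc, hac⟩, rfl, rfl, rfl⟩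
    · by_cases e2 : (a = u ∧ c = v) ∨ (a = v ∧ c = u)
      · rcases e2 with ⟨rfl, rfl⟩ | ⟨rfl, rfl⟩
        · right; left; left; left; right
          exact ⟨b, ⟨hab, hbc.symm⟩, rfl, rfl, rfl⟩
        · right; left; left; right
          exact ⟨b, ⟨hbc.symm, hab⟩, rfl, rfl, rfl⟩
      · by_cases e3 : (b = u ∧ c = v) ∨ (b = v ∧ c = u)
        · rcases e3 with ⟨rfl, rfl⟩ | ⟨rfl, rfl⟩
          · right; left; right
            exact ⟨a, ⟨hab.symm, hac.symm⟩, rfl, rfl, rfl⟩
          · right; right
            exact ⟨a, ⟨hac.symm, hab.symm⟩, rfl, rfl, rfl⟩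
        · left
          exact ⟨⟨hab, e1⟩, ⟨hac, e2⟩, ⟨hbc, e3⟩⟩
  have h1 := Finset.card_le_card hsub
  have i1 := Finset.card_image_le (s := cn G u v) (f := fun w => (u, v, w))
  have i2 := Finset.card_image_le (s := cn G u v) (f := fun w => (v, u, w))
  have i3 := Finset.card_image_le (s := cn G u v) (f := fun w => (u, w, v))
  have i4 := Finset.card_image_le (s := cn G u v) (f := fun w => (v, w, u))
  have i5 := Finset.card_image_le (s := cn G u v) (f := fun w => (w, u, v))
  have i6 := Finset.card_image_le (s := cn G u v) (f := fun w => (w, v, u))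
  have u0 := Finset.card_union_le (ot (del G u v)) ((cn G u v).image (fun w => (u, v, w)) ∪
      (cn G u v).image (fun w => (v, u, w)) ∪ (cn G u v).image (fun w => (u, w, v)) ∪
      (cn G u v).image (fun w => (v, w, u)) ∪ (cn G u v).image (fun w => (w, u, v)) ∪
      (cn G u v).image (fun w => (w, v, u)))
  have u1 := Finset.card_union_le ((cn G u v).image (fun w => (u, v, w)) ∪
      (cn G u v).image (fun w => (v, u, w)) ∪ (cn G u v).image (fun w => (u, w, v)) ∪
      (cn G u v).image (fun w => (v, w, u)) ∪ (cn G u v).image (fun w => (w, u, v)))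
      ((cn G u v).image (fun w => (w, v, u)))
  have u2 := Finset.card_union_le ((cn G u v).image (fun w => (u, v, w)) ∪
      (cn G u v).image (fun w => (v, u, w)) ∪ (cn G u v).image (fun w => (u, w, v)) ∪
      (cn G u v).image (fun w => (v, w, u))) ((cn G u v).image (fun w => (w, u, v)))
  have u3 := Finset.card_union_le ((cn G u v).image (fun w => (u, v, w)) ∪
      (cn G u v).image (fun w => (v, u, w)) ∪ (cn G u v).image (fun w => (u, w, v)))
      ((cn G u v).image (fun w => (v, w, u)))
  have u4 := Finset.card_union_le ((cn G u v).image (fun w => (u, v, w)) ∪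
      (cn G u v).image (fun w => (v, u, w))) ((cn G u v).image (fun w => (u, w, v)))
  have u5 := Finset.card_union_le ((cn G u v).image (fun w => (u, v, w)))
      ((cn G u v).image (fun w => (v, u, w)))
  omega

/-- PEEL. -/
theorem peel : EPTools → Peel := by
  intro ht s hs κ V _ G
  induction hn : (oe G).card using Nat.strong_induction_on generalizing G with
  | _ n ih =>
    intro hG
    by_cases hE : ∃ u v, G.Adj u v
    · obtain ⟨u₀, v₀, h0⟩ := hE
      have hex : ∃ u v, G.Adj u v ∧ (cn G u v).card < 4 * s + 12 := by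
        by_contra hcon
        push Not at hcon
        exact hG (has_of_dense ht hs hcon h0 κ)
      obtain ⟨u, v, huv, hlt⟩ := hex
      have h1 := oe_del huv
      have h2 := ot_del (G := G) (u := u) (v := v)
      have h3 := ih (oe (del G u v)).card (by omega) (del G u v) rfl
        (fun h => hG (ht.hasMono κ s (del_le G u v) h))
      rw [← hn]
      calc (ot G).card ≤ (12 * s + 40) * (oe (del G u v)).card + 6 * (4 * s + 11) := by omega
        _ ≤ (12 * s + 40) * ((oe (del G u v)).card + 2) := by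
            have h4 := Nat.mul_add (12 * s + 40) (oe (del G u v)).card 2
            omega
        _ ≤ (12 * s + 40) * (oe G).card := Nat.mul_le_mul_left _ h1
    · push Not at hE
      have : ot G = ∅ := by
        rw [Finset.eq_empty_iff_forall_notMem]
        intro p hp
        rw [mem_ot] at hp
        exact hE _ _ hp.1
      rw [this, Finset.card_empty]
      exact Nat.zero_le _

end

end Pool.Agent.Helper62.Tri
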