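import Pool.Agent.Helper61.Tri.Goals

/-! MP_5b3c48_co, packet U4. -/

set_option autoImplicit false

open Finset

namespace Pool.Agent.Helper62.Tri.U4

open Pool.Agent.Helper61.Tri

noncomputable section

open scoped Classical

variable {V : Type} [Fintype V]

/-- members of `A` adjacent to all of `X` -/
def AA (G : SimpleGraph V) (A X : Finset V) : Finset V := A.filter fun a => ∀ x ∈ X, G.Adj a x

theorem mem_AA {G : SimpleGraph V} {A X : Finset V} {a : V} :
    a ∈ AA G A X ↔ a ∈ A ∧ ∀ x ∈ X, G.Adj a x := by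
  simp [AA]

theorem cn_adj {G : SimpleGraph V} {u v : V} {X : Finset V} (h : cn G u v = X) :
    (∀ x ∈ X, G.Adj u x) ∧ ∀ x ∈ X, G.Adj v x := by
  subst h
  constructor
  · intro x hx
    simp only [cn, Finset.mem_filter, Finset.mem_univ, true_and] at hx
    exact hx.1
  · intro x hx
    simp only [cn, Finset.mem_filter, Finset.mem_univ, true_and] at hx
    exact hx.2

theorem card_le (S : Finset V) : ((S.card : ℕ) : ℝ) ≤ (Fintype.card V : ℝ) := by
  exact_mod_cast Finset.card_le_univ S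

/-- Step 1. -/
theorem step1 {G : SimpleGraph V} {s : ℕ} {A X : Finset V} {ε η : ℝ} (hn : 0 < Fintype.card V)
    (h2 : ((univ.filter fun p : V × V => G.Adj p.1 p.2 ∧ (p.1 ∈ A ↔ p.2 ∈ A)).card : ℝ)
      ≤ ε * (Fintype.card V : ℝ) ^ 2)
    (hX : η * (Fintype.card V : ℝ) ^ 2
      ≤ ((univ.filter fun p : V × V => Estar G s p.1 p.2 ∧ cn G p.1 p.2 = X).card : ℝ))
    (hε : ε ≤ η / 2) :
    η / 4 * (Fintype.card V : ℝ) ≤ ((AA G A X).card : ℝ) ∧
      η / 4 * (Fintype.card V : ℝ) ≤ ((AA G Aᶜ X).card : ℝ) := by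
  set n : ℝ := (Fintype.card V : ℝ) with hnn
  have hn0 : 0 < n := by rw [hnn]; exact_mod_cast hn
  set a : ℝ := ((AA G A X).card : ℝ) with ha
  set b : ℝ := ((AA G Aᶜ X).card : ℝ) with hb
  have ha0 : 0 ≤ a := Nat.cast_nonneg _
  have hb0 : 0 ≤ b := Nat.cast_nonneg _
  have ha1 : a ≤ n := card_le _
  have hb1 : b ≤ n := card_le _
  have hsub : (univ.filter fun p : V × V => Estar G s p.1 p.2 ∧ cn G p.1 p.2 = X) ⊆
      (AA G A X ×ˢ AA G Aᶜ X) ∪ (AA G Aᶜ X ×ˢ AA G A X) ∪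
        (univ.filter fun p : V × V => G.Adj p.1 p.2 ∧ (p.1 ∈ A ↔ p.2 ∈ A)) := by
    intro p hp
    rw [Finset.mem_filter] at hp
    obtain ⟨_, hE, hc⟩ := hp
    obtain ⟨c1, c2⟩ := cn_adj hc
    rw [Finset.mem_union, Finset.mem_union, Finset.mem_product, Finset.mem_product,
      Finset.mem_filter, mem_AA, mem_AA, mem_AA, mem_AA, Finset.mem_compl, Finset.mem_compl]
    by_cases h1 : p.1 ∈ A <;> by_cases h3 : p.2 ∈ A
    · right
      exact ⟨Finset.mem_univ _, hE.1, by simp [h1, h3]⟩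
    · left; left
      exact ⟨⟨h1, c1⟩, ⟨h3, c2⟩⟩
    · left; right
      exact ⟨⟨h1, c1⟩, ⟨h3, c2⟩⟩
    · right
      exact ⟨Finset.mem_univ _, hE.1, by simp [h1, h3]⟩
  have hcard := Finset.card_le_card hsub
  have u1 := Finset.card_union_le ((AA G A X ×ˢ AA G Aᶜ X) ∪ (AA G Aᶜ X ×ˢ AA G A X))
    (univ.filter fun p : V × V => G.Adj p.1 p.2 ∧ (p.1 ∈ A ↔ p.2 ∈ A))
  have u2 := Finset.card_union_le (AA G A X ×ˢ AA G Aᶜ X) (AA G Aᶜ X ×ˢ AA G A X)
  rw [Finset.card_product, Finset.card_product] at u2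
  have hreal : ((univ.filter fun p : V × V => Estar G s p.1 p.2 ∧ cn G p.1 p.2 = X).card : ℝ) ≤
      a * b + b * a + ((univ.filter fun p : V × V => G.Adj p.1 p.2 ∧
        (p.1 ∈ A ↔ p.2 ∈ A)).card : ℝ) := by
    rw [ha, hb]
    exact_mod_cast (hcard.trans (u1.trans (Nat.add_le_add_right u2 _)))
  have h3 : η / 2 * n ^ 2 ≤ 2 * (a * b) := by
    have h4 : ε * n ^ 2 ≤ η / 2 * n ^ 2 := mul_le_mul_of_nonneg_right hε (by positivity)
    nlinarith
  constructor
  · have h4 : 2 * (a * b) ≤ 2 * (a * n) := by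
      have := mul_le_mul_of_nonneg_left hb1 ha0
      linarith
    have h5 : η / 4 * n * n ≤ a * n := by nlinarith
    exact le_of_mul_le_mul_right h5 hn0
  · have h4 : 2 * (a * b) ≤ 2 * (n * b) := by
      have := mul_le_mul_of_nonneg_right ha1 hb0
      linarith
    have h5 : η / 4 * n * n ≤ b * n := by nlinarith
    exact le_of_mul_le_mul_right h5 hn0

/-- from a large set of pairs in a product to the factors -/
theorem fac {P : Finset (V × V)} {S T : Finset V} (h : P ⊆ S ×ˢ T) {η : ℝ}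
    (hn : 0 < Fintype.card V) (hP : η * (Fintype.card V : ℝ) ^ 2 ≤ (P.card : ℝ)) :
    η * (Fintype.card V : ℝ) ≤ (S.card : ℝ) ∧ η * (Fintype.card V : ℝ) ≤ (T.card : ℝ) := by
  set n : ℝ := (Fintype.card V : ℝ) with hnn
  have hn0 : 0 < n := by rw [hnn]; exact_mod_cast hn
  have h1 := Finset.card_le_card h
  rw [Finset.card_product] at h1
  have h2 : (P.card : ℝ) ≤ (S.card : ℝ) * (T.card : ℝ) := by exact_mod_cast h1
  have hS := card_le S
  have hT := card_le T
  have hS0 : (0:ℝ) ≤ (S.card : ℝ) := Nat.cast_nonneg _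
  have hT0 : (0:ℝ) ≤ (T.card : ℝ) := Nat.cast_nonneg _
  constructor
  · have h3 := mul_le_mul_of_nonneg_left hT hS0
    have h5 : η * n * n ≤ (S.card : ℝ) * n := by nlinarith
    exact le_of_mul_le_mul_right h5 hn0
  · have h3 := mul_le_mul_of_nonneg_right hS hT0
    have h5 : η * n * n ≤ (T.card : ℝ) * n := by nlinarith
    exact le_of_mul_le_mul_right h5 hn0

omit [Fintype V] in
theorem exists_sdiff {X Y : Finset V} (h : X.card = Y.card) (hne : X ≠ Y) : ∃ y ∈ X, y ∉ Y := by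
  by_contra hcon
  push Not at hcon
  exact hne (Finset.eq_of_subset_of_card_le hcon (by omega))

/-- the application of `EmbD` -/
theorem app {G : SimpleGraph V} {s : ℕ} (hs : 2 ≤ s) {η' ε' : ℝ}
    (hemb : ∀ (G : SimpleGraph V) (A B : Finset V), Disjoint A B →
    ((univ.filter fun p : V × V => p.1 ∈ A ∧ p.2 ∈ B ∧ ¬ G.Adj p.1 p.2).card : ℝ)
      ≤ ε' * (Fintype.card V : ℝ) ^ 2 →
    ∀ D Z : Finset V, D.card = s + 1 → Z ⊆ B → η' * (Fintype.card V : ℝ) ≤ (Z.card : ℝ) →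
    (∀ z ∈ Z, ∀ d ∈ D, G.Adj z d) →
    (∀ d ∈ D, η' * (Fintype.card V : ℝ) ≤ ((A.filter fun a => G.Adj d a).card : ℝ)) →
    (∃ d ∈ D, ∃ d' ∈ D, d ≠ d' ∧
      η' * (Fintype.card V : ℝ) ≤ ((A.filter fun a => G.Adj d a ∧ G.Adj d' a).card : ℝ)) →
    Has Kind.P s G ∧ Has Kind.Ce s G ∧ Has Kind.Co s G)
    {A B X Y Z W : Finset V} (hAB : Disjoint A B)
    (hdense : ((univ.filter fun p : V × V => p.1 ∈ A ∧ p.2 ∈ B ∧ ¬ G.Adj p.1 p.2).card : ℝ)
      ≤ ε' * (Fintype.card V : ℝ) ^ 2) (hXc : X.card = s) (hYc : Y.card = s) (hne : Y ≠ X)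
    (hZB : Z ⊆ B) (hZ : η' * (Fintype.card V : ℝ) ≤ (Z.card : ℝ))
    (hZX : ∀ z ∈ Z, (∀ x ∈ X, G.Adj z x) ∧ ∀ y ∈ Y, G.Adj z y)
    (hX : η' * (Fintype.card V : ℝ) ≤ ((AA G A X).card : ℝ))
    (hW : η' * (Fintype.card V : ℝ) ≤ (W.card : ℝ)) (hWA : W ⊆ AA G A Y) :
    Has Kind.P s G ∧ Has Kind.Ce s G ∧ Has Kind.Co s G := by
  obtain ⟨y, hyY, hyX⟩ := exists_sdiff (hYc.trans hXc.symm) hne
  refine hemb G A B hAB hdense (insert y X) Z ?_ hZB hZ ?_ ?_ ?_
  · rw [Finset.card_insert_of_notMem hyX, hXc]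
  · intro z hz d hd
    rw [Finset.mem_insert] at hd
    rcases hd with rfl | hd
    · exact (hZX z hz).2 _ hyY
    · exact (hZX z hz).1 d hd
  · intro d hd
    rw [Finset.mem_insert] at hd
    rcases hd with rfl | hd
    · refine hW.trans ?_
      have : W ⊆ A.filter fun a => G.Adj d a := by
        intro a ha
        have := mem_AA.1 (hWA ha)
        rw [Finset.mem_filter]
        exact ⟨this.1, (this.2 _ hyY).symm⟩
      exact_mod_cast Finset.card_le_card this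
    · refine hX.trans ?_
      have : AA G A X ⊆ A.filter fun a => G.Adj d a := by
        intro a ha
        have := mem_AA.1 ha
        rw [Finset.mem_filter]
        exact ⟨this.1, (this.2 _ hd).symm⟩
      exact_mod_cast Finset.card_le_card this
  · obtain ⟨d, hd, d', hd', hdd⟩ := Finset.one_lt_card.1 (show 1 < X.card by omega)
    refine ⟨d, Finset.mem_insert_of_mem hd, d', Finset.mem_insert_of_mem hd', hdd, ?_⟩
    refine hX.trans ?_
    have : AA G A X ⊆ A.filter fun a => G.Adj d a ∧ G.Adj d' a := by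
      intro a ha
      have := mem_AA.1 ha
      rw [Finset.mem_filter]
      exact ⟨this.1, (this.2 _ hd).symm, (this.2 _ hd').symm⟩
    exact_mod_cast Finset.card_le_card this

/-- U4. -/
theorem u4' : U3 → EmbD → U4 := by
  intro hU3 hEmb s hs κ hκ η hη
  obtain ⟨η2, hη2, n1, hU⟩ := hU3 s hs κ hκ (η ^ 2 / 32) (by positivity)
  set η' : ℝ := min (η / 4) η2 with hη'
  have hη'0 : 0 < η' := lt_min (by positivity) hη2
  obtain ⟨ε', hε', n2, hE⟩ := hEmb s hs η' hη'0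
  refine ⟨min ε' (min (η / 2) (η ^ 2 / 64)), lt_min hε' (lt_min (by positivity) (by positivity)),
    max 1 (max n1 n2), ?_⟩
  intro V _ hV G hG A h1 h2 h3 X X' hX hX'
  by_contra hne
  set ε : ℝ := min ε' (min (η / 2) (η ^ 2 / 64)) with hε
  have e1 : ε ≤ ε' := min_le_left _ _
  have e2 : ε ≤ η / 2 := (min_le_right _ _).trans (min_le_left _ _)
  have e3 : ε ≤ η ^ 2 / 64 := (min_le_right _ _).trans (min_le_right _ _)
  have hn : 0 < Fintype.card V := lt_of_lt_of_le one_pos ((le_max_left _ _).trans hV)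
  have hn1 : n1 ≤ Fintype.card V := ((le_max_left _ _).trans (le_max_right _ _)).trans hV
  have hn2 : n2 ≤ Fintype.card V := ((le_max_right _ _).trans (le_max_right _ _)).trans hV
  have hHas : ¬ (Has Kind.P s G ∧ Has Kind.Ce s G ∧ Has Kind.Co s G) := by
    rintro ⟨g1, g2, g3⟩
    apply hG
    cases κ with
    | P => exact g1
    | Ce => exact g2
    | Co => exact g3
    | Po => exact absurd rfl hκ
  set n : ℝ := (Fintype.card V : ℝ) with hnn
  have hn0 : 0 < n := by rw [hnn]; exact_mod_cast hn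
  obtain ⟨aX, bX⟩ := step1 hn h2 hX e2
  obtain ⟨aX', bX'⟩ := step1 hn h2 hX' e2
  -- cardinalities of X, X'
  have hcardX : ∀ Y : Finset V, η * n ^ 2 ≤ ((univ.filter fun p : V × V =>
      Estar G s p.1 p.2 ∧ cn G p.1 p.2 = Y).card : ℝ) → Y.card = s := by
    intro Y hY
    have hpos : 0 < (univ.filter fun p : V × V => Estar G s p.1 p.2 ∧ cn G p.1 p.2 = Y).card := by
      have : (0:ℝ) < ((univ.filter fun p : V × V =>
        Estar G s p.1 p.2 ∧ cn G p.1 p.2 = Y).card : ℝ) := lt_of_lt_of_le (by positivity) hY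
      exact_mod_cast this
    obtain ⟨p, hp⟩ := Finset.card_pos.1 hpos
    rw [Finset.mem_filter] at hp
    rw [← hp.2.2]
    exact hp.2.1.2.1
  have cX := hcardX X hX
  have cX' := hcardX X' hX'
  -- the relation R
  obtain ⟨R, hR⟩ : ∃ R : V → V → Prop, ∀ u v, (R u v ↔
      (u ∈ AA G A X ∧ v ∈ AA G Aᶜ X' ∧ Estar G s u v)) := ⟨_, fun _ _ => Iff.rfl⟩
  have hRcard : η ^ 2 / 32 * n ^ 2 ≤ ((univ.filter fun p : V × V => R p.1 p.2).card : ℝ) := by
    have hsub : AA G A X ×ˢ AA G Aᶜ X' ⊆ (univ.filter fun p : V × V => R p.1 p.2) ∪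
        (univ.filter fun p : V × V => p.1 ∈ A ∧ p.2 ∉ A ∧ ¬ G.Adj p.1 p.2) ∪
        (univ.filter fun p : V × V => G.Adj p.1 p.2 ∧ ¬ Estar G s p.1 p.2) := by
      intro p hp
      rw [Finset.mem_product] at hp
      have q1 := mem_AA.1 hp.1
      have q2 := mem_AA.1 hp.2
      rw [Finset.mem_compl] at q2
      rw [Finset.mem_union, Finset.mem_union, Finset.mem_filter, Finset.mem_filter,
        Finset.mem_filter]
      by_cases hadj : G.Adj p.1 p.2
      · by_cases hst : Estar G s p.1 p.2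
        · left; left
          exact ⟨Finset.mem_univ _, (hR _ _).2 ⟨hp.1, hp.2, hst⟩⟩
        · right
          exact ⟨Finset.mem_univ _, hadj, hst⟩
      · left; right
        exact ⟨Finset.mem_univ _, q1.1, q2.1, hadj⟩
    have hc := Finset.card_le_card hsub
    rw [Finset.card_product] at hc
    have u1 := Finset.card_union_le ((univ.filter fun p : V × V => R p.1 p.2) ∪
        (univ.filter fun p : V × V => p.1 ∈ A ∧ p.2 ∉ A ∧ ¬ G.Adj p.1 p.2))
        (univ.filter fun p : V × V => G.Adj p.1 p.2 ∧ ¬ Estar G s p.1 p.2)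
    have u2 := Finset.card_union_le (univ.filter fun p : V × V => R p.1 p.2)
        (univ.filter fun p : V × V => p.1 ∈ A ∧ p.2 ∉ A ∧ ¬ G.Adj p.1 p.2)
    have hr : ((AA G A X).card : ℝ) * ((AA G Aᶜ X').card : ℝ) ≤
        ((univ.filter fun p : V × V => R p.1 p.2).card : ℝ) +
        ((univ.filter fun p : V × V => p.1 ∈ A ∧ p.2 ∉ A ∧ ¬ G.Adj p.1 p.2).card : ℝ) +
        ((univ.filter fun p : V × V => G.Adj p.1 p.2 ∧ ¬ Estar G s p.1 p.2).card : ℝ) := by
      exact_mod_cast (hc.trans (u1.trans (Nat.add_le_add_right u2 _)))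
    have hm : (η / 4 * n) * (η / 4 * n) ≤
        ((AA G A X).card : ℝ) * ((AA G Aᶜ X').card : ℝ) :=
      mul_le_mul aX bX' (by positivity) (Nat.cast_nonneg _)
    have he : ε * n ^ 2 ≤ η ^ 2 / 64 * n ^ 2 := mul_le_mul_of_nonneg_right e3 (by positivity)
    nlinarith
  obtain ⟨X'', hX''⟩ := hU V hn1 G hG R (fun u v h => ((hR u v).1 h).2.2) hRcard
  have hsub2 : (univ.filter fun p : V × V => R p.1 p.2 ∧ cn G p.1 p.2 = X'') ⊆
      (AA G A X ∩ AA G A X'') ×ˢ (AA G Aᶜ X' ∩ AA G Aᶜ X'') := by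
    intro p hp
    rw [Finset.mem_filter] at hp
    obtain ⟨_, hr, hc⟩ := hp
    obtain ⟨r1, r2, r3⟩ := (hR _ _).1 hr
    obtain ⟨c1, c2⟩ := cn_adj hc
    rw [Finset.mem_product, Finset.mem_inter, Finset.mem_inter]
    exact ⟨⟨r1, mem_AA.2 ⟨(mem_AA.1 r1).1, c1⟩⟩, ⟨r2, mem_AA.2 ⟨(mem_AA.1 r2).1, c2⟩⟩⟩
  obtain ⟨k1, k2⟩ := fac hsub2 hn hX''
  have cX'' : X''.card = s := by
    have hpos : 0 < (univ.filter fun p : V × V => R p.1 p.2 ∧ cn G p.1 p.2 = X'').card := by
      have : (0:ℝ) < ((univ.filter fun p : V × V => R p.1 p.2 ∧ cn G p.1 p.2 = X'').card : ℝ) :=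
        lt_of_lt_of_le (by positivity) hX''
      exact_mod_cast this
    obtain ⟨p, hp⟩ := Finset.card_pos.1 hpos
    rw [Finset.mem_filter] at hp
    rw [← hp.2.2]
    exact ((hR _ _).1 hp.2.1).2.2.2.1
  have m1 : η' * n ≤ η / 4 * n := mul_le_mul_of_nonneg_right (min_le_left _ _) hn0.le
  have m2 : η' * n ≤ η2 * n := mul_le_mul_of_nonneg_right (min_le_right _ _) hn0.le
  have me : ε * n ^ 2 ≤ ε' * n ^ 2 := mul_le_mul_of_nonneg_right e1 (by positivity)
  by_cases hcase : X'' = X'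
  · -- then `X'' ≠ X`
    have hne' : X'' ≠ X := fun h => hne (h.symm.trans hcase)
    apply hHas
    refine app hs (fun G A B => hE V hn2 G A B) (A := Aᶜ) (B := A) (X := X) (Y := X'')
      (Z := AA G A X ∩ AA G A X'') (W := AA G Aᶜ X' ∩ AA G Aᶜ X'')
      disjoint_compl_left ?_ cX cX'' hne' ?_ (m2.trans k1) ?_ (m1.trans bX) (m2.trans k2)
      Finset.inter_subset_right
    · refine le_trans ?_ (h1.trans me)
      have hcd : (univ.filter fun p : V × V => p.1 ∈ Aᶜ ∧ p.2 ∈ A ∧ ¬ G.Adj p.1 p.2).card ≤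
          (univ.filter fun p : V × V => p.1 ∈ A ∧ p.2 ∉ A ∧ ¬ G.Adj p.1 p.2).card := by
        refine Finset.card_le_card_of_injOn Prod.swap ?_ (Prod.swap_injective.injOn)
        intro p hp
        rw [Finset.mem_coe, Finset.mem_filter] at hp ⊢
        rw [Finset.mem_compl] at hp
        exact ⟨Finset.mem_univ _, hp.2.2.1, hp.2.1, fun h => hp.2.2.2 h.symm⟩
      exact_mod_cast hcd
    · intro z hz
      exact (mem_AA.1 (Finset.mem_inter.1 hz).1).1
    · intro z hz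
      rw [Finset.mem_inter] at hz
      exact ⟨(mem_AA.1 hz.1).2, (mem_AA.1 hz.2).2⟩
  · apply hHas
    refine app hs (fun G A B => hE V hn2 G A B) (A := A) (B := Aᶜ) (X := X') (Y := X'')
      (Z := AA G Aᶜ X' ∩ AA G Aᶜ X'') (W := AA G A X ∩ AA G A X'')
      disjoint_compl_right ?_ cX' cX'' hcase ?_ (m2.trans k2) ?_ (m1.trans aX') (m2.trans k1)
      Finset.inter_subset_right
    · refine le_trans ?_ (h1.trans me)
      have hcd : (univ.filter fun p : V × V => p.1 ∈ A ∧ p.2 ∈ Aᶜ ∧ ¬ G.Adj p.1 p.2).card ≤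
          (univ.filter fun p : V × V => p.1 ∈ A ∧ p.2 ∉ A ∧ ¬ G.Adj p.1 p.2).card := by
        refine Finset.card_le_card ?_
        intro p hp
        rw [Finset.mem_filter] at hp ⊢
        rw [Finset.mem_compl] at hp
        exact hp
      exact_mod_cast hcd
    · intro z hz
      exact (mem_AA.1 (Finset.mem_inter.1 hz).1).1
    · intro z hz
      rw [Finset.mem_inter] at hz
      exact ⟨(mem_AA.1 hz.1).2, (mem_AA.1 hz.2).2⟩

end

end Pool.Agent.Helper62.Tri.U4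

theorem Pool.Agent.Helper62.Tri.u4 : Pool.Agent.Helper61.Tri.U3 → Pool.Agent.Helper61.Tri.EmbD →
    Pool.Agent.Helper61.Tri.U4 := Pool.Agent.Helper62.Tri.U4.u4'
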